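import Pool.Agent.H63.CM.Defs

/-!
# Exponential tails

`X P m` is an indicator with mean `p = 1 / log m`; `E exp (t w X) = 1 + p (exp (t w) - 1) ≤ exp (p (exp (t w) - 1))`, independence
(`iIndepSet.iIndepFun_indicator`, `iIndepFun.mgf_sum`), Chernoff (`measure_le_le_exp_mul_mgf`, `measure_ge_le_exp_mul_mgf`).
-/

set_option autoImplicit false

open Filter Real MeasureTheory ProbabilityTheory

namespace Pool.Agent.H63.CM

variable {Ω : Type*} [MeasurableSpace Ω] {μ : Measure Ω} [IsProbabilityMeasure μ] {P : Ω → Set ℕ}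

namespace TailM

theorem X_meas (h : IsCramer μ P) (m : ℕ) : Measurable (X P m) :=
  measurable_const.indicator (h.meas m)

theorem X_int (h : IsCramer μ P) (m : ℕ) : Integrable (X P m) μ :=
  (integrable_const 1).indicator (h.meas m)

theorem X_mean (h : IsCramer μ P) {m : ℕ} (hm : 3 ≤ m) : ∫ ω, X P m ω ∂μ = 1 / log m := by
  have h1 : ∫ ω, X P m ω ∂μ = μ.real {ω | m ∈ P ω} := by
    unfold X
    rw [integral_indicator_const _ (h.meas m)]
    simp
  have h2 : (0 : ℝ) ≤ 1 / log m :=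
    one_div_nonneg.2 (Real.log_nonneg (by exact_mod_cast (by omega : 1 ≤ m)))
  rw [h1, measureReal_def, h.prob m hm, ENNReal.toReal_ofReal h2]

theorem exp_X (m : ℕ) (w t : ℝ) (ω : Ω) :
    exp (t * (w * X P m ω)) = 1 + (exp (t * w) - 1) * X P m ω := by
  unfold X
  by_cases hω : ω ∈ {ω | m ∈ P ω}
  · rw [Set.indicator_of_mem hω]
    simp
  · rw [Set.indicator_of_notMem hω]
    simp

theorem exp_int (h : IsCramer μ P) (m : ℕ) (w t : ℝ) :
    Integrable (fun ω => exp (t * (w * X P m ω))) μ := by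
  have h1 : (fun ω => exp (t * (w * X P m ω))) = fun ω => 1 + (exp (t * w) - 1) * X P m ω :=
    funext fun ω => exp_X m w t ω
  rw [h1]
  exact (integrable_const 1).add ((X_int h m).const_mul _)

theorem mgf_le (h : IsCramer μ P) {m : ℕ} (hm : 3 ≤ m) (w t : ℝ) :
    mgf (fun ω => w * X P m ω) μ t ≤ exp ((1 / log m) * (exp (t * w) - 1)) := by
  have h1 : mgf (fun ω => w * X P m ω) μ t = 1 + (exp (t * w) - 1) * (1 / log m) := by
    show ∫ ω, exp (t * (w * X P m ω)) ∂μ = _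
    have h2 : (fun ω => exp (t * (w * X P m ω))) = fun ω => 1 + (exp (t * w) - 1) * X P m ω :=
      funext fun ω => exp_X m w t ω
    rw [h2, integral_add (integrable_const 1) ((X_int h m).const_mul _), integral_const_mul,
      X_mean h hm]
    simp
  rw [h1]
  have h3 := add_one_le_exp ((1 / log m) * (exp (t * w) - 1))
  linarith

theorem mgf_sum_le (h : IsCramer μ P) (S : Finset ℕ) (hS : ∀ m ∈ S, 3 ≤ m) (w : ℕ → ℝ) (t : ℝ) :
    Integrable (fun ω => exp (t * ∑ m ∈ S, w m * X P m ω)) μ ∧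
    mgf (fun ω => ∑ m ∈ S, w m * X P m ω) μ t ≤
      exp (∑ m ∈ S, (1 / log m) * (exp (t * w m) - 1)) := by
  have hind : iIndepFun (fun m : ℕ => fun ω => w m * X P m ω) μ := by
    have h1 : iIndepFun (fun m : ℕ => X P m) μ := h.indep.iIndepFun_indicator
    exact h1.comp (fun m x => w m * x) fun m => measurable_const.mul measurable_id
  have hmeas : ∀ m : ℕ, Measurable fun ω => w m * X P m ω := fun m =>
    measurable_const.mul (X_meas h m)
  have hfun : (∑ m ∈ S, fun ω => w m * X P m ω) = fun ω => ∑ m ∈ S, w m * X P m ω := by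
    funext ω
    rw [Finset.sum_apply]
  constructor
  · have h2 := hind.integrable_exp_mul_sum (t := t) hmeas (s := S) fun m _ => exp_int h m (w m) t
    rw [hfun] at h2
    exact h2
  · have h2 := hind.mgf_sum (t := t) hmeas S
    rw [hfun] at h2
    rw [h2, exp_sum]
    exact Finset.prod_le_prod (fun m _ => mgf_nonneg) fun m hm => mgf_le h (hS m hm) (w m) t

end TailM

theorem low_tail (h : IsCramer μ P) (S : Finset ℕ) (hS : ∀ m ∈ S, 3 ≤ m) (w : ℕ → ℝ) (a : ℝ) {lam : ℝ} (hl : 0 ≤ lam) :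
    μ.real {ω | ∑ m ∈ S, w m * X P m ω ≤ a} ≤ exp (lam * a + ∑ m ∈ S, (1 / log m) * (exp (-(lam * w m)) - 1)) := by
  obtain ⟨h1, h2⟩ := TailM.mgf_sum_le h S hS w (-lam)
  have h3 := measure_le_le_exp_mul_mgf a (neg_nonpos.2 hl) h1
  refine h3.trans ?_
  rw [exp_add, neg_neg]
  refine mul_le_mul_of_nonneg_left (h2.trans (le_of_eq ?_)) (exp_pos _).le
  congr 1
  refine Finset.sum_congr rfl fun m _ => ?_
  rw [neg_mul]

theorem up_tail (h : IsCramer μ P) (S : Finset ℕ) (hS : ∀ m ∈ S, 3 ≤ m) (w : ℕ → ℝ) (a : ℝ) {lam : ℝ} (hl : 0 ≤ lam) :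
    μ.real {ω | a ≤ ∑ m ∈ S, w m * X P m ω} ≤ exp (-(lam * a) + ∑ m ∈ S, (1 / log m) * (exp (lam * w m) - 1)) := by
  obtain ⟨h1, h2⟩ := TailM.mgf_sum_le h S hS w lam
  have h3 := measure_ge_le_exp_mul_mgf a hl h1
  refine h3.trans ?_
  rw [exp_add, neg_mul]
  exact mul_le_mul_of_nonneg_left h2 (exp_pos _).le

end Pool.Agent.H63.CM
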